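import Mathlib
import Pool.Agent.Lib.MP_10302a_co.Defs
import Pool.Agent.Lib.MP_10302a_co.Main

set_option autoImplicit false

namespace Pool.Agent.Lib.MP_10302a_co.Old.Q2Unbounded

open Pool.Agent.Lib.MP_10302a_co

/-- Q2 is false. -/
theorem result : ∀ C : ℝ, ∃ m n : ℕ, 2 ≤ n ∧ n ≤ m ∧
    C * ((m : ℝ) * Real.sqrt (n : ℝ) + (n : ℝ)) < (z3L m n : ℝ) := by
  intro C
  obtain ⟨t, ht⟩ := exists_nat_gt (max (8 * C) 1)
  have ht1 : (1 : ℝ) < t := lt_of_le_of_lt (le_max_right _ _) ht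
  have htC : 8 * C < t := lt_of_le_of_lt (le_max_left _ _) ht
  have ht1' : 1 < t := by exact_mod_cast ht1
  obtain ⟨s, hs⟩ : ∃ s : ℕ, s + 1 = 2 * t ^ 2 := ⟨2 * t ^ 2 - 1, by
    have : 1 ≤ 2 * t ^ 2 := by nlinarith
    omega⟩
  have h := z3L_ge s ((4 * t ^ 2) ^ 2)
  have hn : 2 * (s + 1) = 4 * t ^ 2 := by omega
  rw [hn] at h
  have hch : (4 * t ^ 2).choose 2 ≤ (4 * t ^ 2) ^ 2 := Nat.choose_le_pow _ _
  refine ⟨(4 * t ^ 2).choose 2 + 2 * (4 * t ^ 2) ^ 2, 4 * t ^ 2, by nlinarith, by nlinarith, ?_⟩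
  have h3 : ((((4 * t ^ 2) ^ 2 * s : ℕ)) : ℝ)
      ≤ (z3L ((4 * t ^ 2).choose 2 + 2 * (4 * t ^ 2) ^ 2) (4 * t ^ 2) : ℝ) := by
    exact_mod_cast h
  refine lt_of_lt_of_le ?_ h3
  have hsq : Real.sqrt ((4 * t ^ 2 : ℕ) : ℝ) = 2 * t := by
    rw [Real.sqrt_eq_iff_mul_self_eq (by positivity) (by positivity)]
    push_cast; ring
  rw [hsq]
  have hch' : (((4 * t ^ 2).choose 2 : ℕ) : ℝ) ≤ (4 * (t : ℝ) ^ 2) ^ 2 := by exact_mod_cast hch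
  have hs' : (s : ℝ) = 2 * t ^ 2 - 1 := by
    have : ((s + 1 : ℕ) : ℝ) = ((2 * t ^ 2 : ℕ) : ℝ) := by rw [hs]
    push_cast at this
    linarith
  push_cast
  rw [hs']
  have hK0 : (0 : ℝ) ≤ (((4 * t ^ 2).choose 2 : ℕ) : ℝ) := by positivity
  generalize (((4 * t ^ 2).choose 2 : ℕ) : ℝ) = K at hch' hK0 ⊢
  have ht0 : (0 : ℝ) < t := by linarith
  set N : ℝ := 4 * (t : ℝ) ^ 2 with hN
  have hN1 : 1 < N := by nlinarith
  have hpos : 0 < N ^ 2 * (2 * (t : ℝ) ^ 2 - 1) := by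
    apply mul_pos (by positivity); nlinarith
  rcases le_or_gt C 0 with hC | hC
  · have : C * ((K + 2 * N ^ 2) * (2 * t) + N) ≤ 0 :=
      mul_nonpos_of_nonpos_of_nonneg hC (by positivity)
    linarith
  · have e1 : (K + 2 * N ^ 2) * (2 * t) + N ≤ N ^ 2 * (7 * t) := by nlinarith
    have e2 : C * (7 * t) < 2 * (t : ℝ) ^ 2 - 1 := by nlinarith
    calc C * ((K + 2 * N ^ 2) * (2 * t) + N) ≤ C * (N ^ 2 * (7 * t)) :=
          mul_le_mul_of_nonneg_left e1 hC.le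
      _ = N ^ 2 * (C * (7 * t)) := by ring
      _ < N ^ 2 * (2 * (t : ℝ) ^ 2 - 1) := mul_lt_mul_of_pos_left e2 (by positivity)

end Pool.Agent.Lib.MP_10302a_co.Old.Q2Unbounded
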